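import Pool.Agent.Helper34.ST.Basic

set_option autoImplicit false

namespace Pool.Agent.Helper17.ST

open Pool.Agent.Helper34.ST Finset

theorem st_MMCS (h : ST_MMC) : ST_MMCS := by
  classical
  intro ι _ r d hd hw z hz C hC hcl
  obtain ⟨w, hw0, hwr, hww, hwd⟩ := hw
  obtain ⟨x0, hx0⟩ := hC
  have hne : Nonempty {x // x ∈ C} := ⟨⟨x0, hx0⟩⟩
  have hsum : ∀ f : ι → ℝ, (∀ y, y ∉ C → f y = 0) → ∑ y : {x // x ∈ C}, f y.1 = ∑ y, f y := by
    intro f hf
    rw [← Finset.sum_filter_add_sum_filter_not Finset.univ (fun y => y ∈ C) f]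
    have h1 : ∑ y ∈ Finset.univ.filter (fun y => y ∉ C), f y = 0 :=
      Finset.sum_eq_zero fun y hy => hf y (Finset.mem_filter.mp hy).2
    rw [h1, add_zero]
    refine (Finset.sum_subtype (Finset.univ.filter (fun y => y ∈ C)) ?_ f).symm
    intro x
    simp
  have hWt : WtO (fun a b : {x // x ∈ C} => r a.1 b.1) d := by
    refine ⟨fun a b => w a.1 b.1, fun i j => hw0 _ _, fun i j => hwr _ _, fun i j => hww _ _, ?_⟩
    intro i
    have h1 : ∑ j : {x // x ∈ C}, w i.1 j.1 = ∑ j, w i.1 j := by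
      apply hsum (fun j => w i.1 j)
      intro y hy
      by_contra h0
      have h2 : 0 < w i.1 y := lt_of_le_of_ne (hw0 _ _) (Ne.symm h0)
      exact hy (hcl i.1 i.2 y (hwr _ _ h2))
    rw [h1]
    exact hwd i.1
  have hCst : Cst (fun a : {x // x ∈ C} => z a.1) d := by
    refine ⟨fun i => hz.1 _, ?_⟩
    refine le_trans ?_ hz.2
    have h1 : ∑ i : {x // x ∈ C}, z i.1 = ∑ i : {x // x ∈ C}, (fun y => if y ∈ C then z y else 0) i.1 := by
      refine Finset.sum_congr rfl fun i _ => ?_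
      simp [i.2]
    have h2 := hsum (fun y => if y ∈ C then z y else 0) (fun y hy => by simp [hy])
    rw [h1, h2]
    refine Finset.sum_le_sum fun i _ => ?_
    by_cases hi : i ∈ C
    · simp [hi]
    · simp [hi, hz.1 i]
  obtain ⟨L, u, hL, hu, hper, hc⟩ := h {x // x ∈ C} (fun a b => r a.1 b.1) d hd hWt
    (fun a => z a.1) hCst
  refine ⟨L, fun i => (u i).1, hL, fun i => hu i, fun i => (u i).2, fun i => ?_, hc⟩
  show (u (i + L)).1 = (u i).1
  rw [hper i]

end Pool.Agent.Helper17.ST
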